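import Mathlib

namespace Pool.Agent.H.MP_f0e28a_gt

open Set Topology Filter Module

abbrev E (n : ℕ) := EuclideanSpace ℝ (Fin n)

variable {n : ℕ}

/-- `F` is a face of `C`. -/
def Face (C F : Set (E n)) : Prop :=
  F ⊆ C ∧ Convex ℝ F ∧ ∀ x ∈ C, ∀ y ∈ C, (openSegment ℝ x y ∩ F).Nonempty → x ∈ F ∧ y ∈ F

/-- The facial dimension signature. -/
def sig (C : Set (E n)) : Set ℕ :=
  {d | ∃ F, Face C F ∧ F.Nonempty ∧ finrank ℝ (affineSpan ℝ F).direction = d}

/-- Every nonempty proper face is cut out by the boundary of a closed half-space containing `C`. -/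
def FE (C : Set (E n)) : Prop := ∀ F, Face C F → F.Nonempty → F ≠ C →
  ∃ (v : E n) (c : ℝ), v ≠ 0 ∧ (∀ x ∈ C, inner ℝ x v ≤ c) ∧ F = {x ∈ C | inner ℝ x v = c}

/-- Spectrahedra. -/
def Spec (S : Set (E n)) : Prop :=
  ∃ (m : ℕ) (A₀ : Matrix (Fin m) (Fin m) ℝ) (A : Fin n → Matrix (Fin m) (Fin m) ℝ),
    A₀.IsSymm ∧ (∀ i, (A i).IsSymm) ∧ S = {x | (A₀ + ∑ i, x i • A i).PosSemidef}

/-- The polar set. -/
def polar (C : Set (E n)) : Set (E n) := {y | ∀ x ∈ C, inner ℝ x y ≤ 1}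

lemma face_cut {C : Set (E n)} (hC : Convex ℝ C) {v : E n} {c : ℝ} (h : ∀ x ∈ C, inner ℝ x v ≤ c) :
    Face C {x ∈ C | inner ℝ x v = c} := by
  refine ⟨fun _ h => h.1, fun x hx y hy a b ha hb hab => ⟨hC hx.1 hy.1 ha hb hab, ?_⟩, ?_⟩
  · simp only [inner_add_left, real_inner_smul_left, hx.2, hy.2]
    rw [← add_mul, hab, one_mul]
  · rintro x hx y hy ⟨_, ⟨a, b, ha, hb, hab, rfl⟩, -, h1⟩
    simp only [inner_add_left, real_inner_smul_left] at h1
    have h2 := h x hx
    have h3 := h y hy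
    have h4 : a * (c - inner ℝ x v) + b * (c - inner ℝ y v) = 0 := by linear_combination c * hab - h1
    exact ⟨⟨hx, by nlinarith [mul_nonneg ha.le (sub_nonneg.2 h2), mul_nonneg hb.le (sub_nonneg.2 h3)]⟩,
      hy, by nlinarith [mul_nonneg ha.le (sub_nonneg.2 h2), mul_nonneg hb.le (sub_nonneg.2 h3)]⟩

lemma Face.ext {C F : Set (E n)} (h : Face C F) {p q : E n} (hp : p ∈ F) (hq : q ∈ C) {e : ℝ} (he : 0 < e)
    (h1 : p + e • (p - q) ∈ C) : q ∈ F := by
  refine (h.2.2 q hq _ h1 ⟨p, ⟨e / (1 + e), 1 / (1 + e), by positivity, by positivity, by field_simp; ring, ?_⟩,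
    hp⟩).1
  match_scalars <;> field_simp <;> ring

lemma Face.inter {C F G : Set (E n)} (h : Face C F) (h' : Face C G) : Face C (F ∩ G) :=
  ⟨fun _ hx => h.1 hx.1, h.2.1.inter h'.2.1, fun x hx y hy ⟨z, h1, h2⟩ =>
    ⟨⟨(h.2.2 x hx y hy ⟨z, h1, h2.1⟩).1, (h'.2.2 x hx y hy ⟨z, h1, h2.2⟩).1⟩,
      (h.2.2 x hx y hy ⟨z, h1, h2.1⟩).2, (h'.2.2 x hx y hy ⟨z, h1, h2.2⟩).2⟩⟩

lemma face_min {C : Set (E n)} (hC : Convex ℝ C) {p : E n} (hp : p ∈ C) :
    Face C {x ∈ C | ∃ e > (0 : ℝ), p + e • (p - x) ∈ C} := by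
  have key : ∀ x ∈ C, ∀ y ∈ C, ∀ a b e : ℝ, 0 < a → 0 < b → a + b = 1 → 0 < e → p + e • (p - (a • x + b • y)) ∈ C →
      ∃ e > (0 : ℝ), p + e • (p - x) ∈ C := fun x hx y hy a b e ha hb hab he h => by
    refine ⟨e * a / (1 + e * b), by positivity, ?_⟩
    convert hC h hy (a := 1 / (1 + e * b)) (b := e * b / (1 + e * b)) (by positivity) (by positivity)
      (by field_simp) using 1
    obtain rfl : a = 1 - b := by linarith
    match_scalars <;> field_simp <;> ring
  refine ⟨fun _ h => h.1, ?_, ?_⟩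
  · rintro x ⟨hx, e, he, h1⟩ y ⟨hy, f, hf, h2⟩ a b ha hb hab
    refine ⟨hC hx hy ha hb hab, e * f / (e + f), by positivity, ?_⟩
    have h3 := hC h1 hp (a := f / (e + f)) (b := e / (e + f)) (by positivity) (by positivity) (by field_simp; ring)
    have h4 := hC h2 hp (a := e / (e + f)) (b := f / (e + f)) (by positivity) (by positivity) (by field_simp)
    convert hC h3 h4 ha hb hab using 1
    obtain rfl : a = 1 - b := by linarith
    match_scalars <;> field_simp <;> ring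
  · rintro x hx y hy ⟨_, ⟨a, b, ha, hb, hab, rfl⟩, -, e, he, h⟩
    exact ⟨⟨hx, key x hx y hy a b e ha hb hab he h⟩,
      hy, key y hy x hx b a e hb ha (by linarith) he (by rwa [add_comm (b • y)])⟩

lemma last {C : Set (E n)} (hC : Convex ℝ C) (cl : IsClosed C) {x y : E n} (hx : x ∈ C) (hy : y ∈ C) {s : ℝ}
    (hs : 1 ≤ s) (h : x + s • (y - x) ∉ C) : ∃ t : ℝ, x + t • (y - x) ∈ C ∧
      ∀ e > (0 : ℝ), x + t • (y - x) + e • (x + t • (y - x) - x) ∉ C := by
  obtain ⟨t, ⟨h1, h2⟩, h3⟩ := (isCompact_Icc.inter_right (cl.preimage (f := fun t : ℝ => x + t • (y - x))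
    (by fun_prop))).exists_isMaxOn (⟨1, ⟨le_rfl, hs⟩, by simpa using hy⟩ : (Icc 1 s ∩ _).Nonempty) continuousOn_id
  refine ⟨t, h2, fun e he h4 => ?_⟩
  have h5 : x + (t + e * t) • (y - x) ∈ C := by
    convert h4 using 1
    module
  have h6 : 0 < e * t := mul_pos he (by linarith [h1.1])
  by_cases h7 : t + e * t ≤ s
  · have := h3 (show t + e * t ∈ _ from ⟨⟨by linarith [h1.1], h7⟩, h5⟩)
    simp only [mem_setOf, id] at this
    linarith
  · refine h ?_
    have h8 : 0 < t + e * t := by linarith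
    generalize t + e * t = r at h5 h7 h8
    convert hC hx h5 (a := 1 - s / r) (b := s / r) (by rw [sub_nonneg, div_le_one h8]; linarith)
      (by positivity) (by ring) using 1
    match_scalars <;> field_simp <;> ring

lemma bipolar {C : Set (E n)} (hC : Convex ℝ C) (cl : IsClosed C) (h0 : 0 ∈ C) {x : E n}
    (h : ∀ y ∈ polar C, inner ℝ x y ≤ 1) : x ∈ C := by
  by_contra hx
  obtain ⟨f, u, h1, h2⟩ := geometric_hahn_banach_closed_point hC cl hx
  have hu : 0 < u := by simpa using h1 0 h0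
  have e : ∀ z, inner ℝ z (u⁻¹ • (InnerProductSpace.toDual ℝ (E n)).symm f) = f z / u := fun z => by
    rw [real_inner_smul_right, real_inner_comm, InnerProductSpace.toDual_symm_apply, inv_mul_eq_div]
  have := h _ fun z hz => by rw [e, div_le_one hu]; exact (h1 z hz).le
  rw [e, div_le_one hu] at this
  linarith

lemma polar_convex (C : Set (E n)) : Convex ℝ (polar C) := fun y hy z hz a b ha hb hab x hx => by
  rw [inner_add_right, real_inner_smul_right, real_inner_smul_right]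
  nlinarith [hy x hx, hz x hx]

lemma polar_compact {C : Set (E n)} (h0 : 0 ∈ interior C) : IsCompact (polar C) := by
  obtain ⟨r, hr, h⟩ := Metric.nhds_basis_closedBall.mem_iff.1 (mem_interior_iff_mem_nhds.1 h0)
  refine Metric.isCompact_of_isClosed_isBounded ?_ ((Metric.isBounded_closedBall (x := 0) (r := r⁻¹)).subset
    fun y hy => ?_)
  · rw [polar, setOf_forall]
    refine isClosed_iInter fun x => ?_
    rw [setOf_forall]
    exact isClosed_iInter fun _ => isClosed_le (by fun_prop) continuous_const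
  · rcases eq_or_ne y 0 with rfl | h1
    · simp [hr.le]
    have h2 := norm_pos_iff.2 h1
    have := hy ((r / ‖y‖) • y) (h (by
      rw [mem_closedBall_zero_iff, norm_smul, Real.norm_of_nonneg (by positivity), div_mul_cancel₀ _ h2.ne']))
    rw [real_inner_smul_left, real_inner_self_eq_norm_sq] at this
    rw [mem_closedBall_zero_iff, ← one_div, le_div_iff₀ hr]
    rwa [show r / ‖y‖ * ‖y‖ ^ 2 = ‖y‖ * r by field_simp] at this

theorem no {S : Set (E n)} (hC : Convex ℝ S) (cl : IsClosed S) (h0 : 0 ∈ interior S) (hs : sig S = {0, 2, 3})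
    (h1 : FE S) : ¬ FE (polar S) := fun h2 => by
  have hz := interior_subset h0
  have hd : ∀ F, Face S F → F.Nonempty → finrank ℝ (vectorSpan ℝ F) ∈ ({0, 2, 3} : Set ℕ) := fun F a b =>
    hs ▸ ⟨F, a, b, by rw [direction_affineSpan]⟩
  have ht : finrank ℝ (affineSpan ℝ S).direction = n := by
    rw [hC.interior_nonempty_iff_affineSpan_eq_top.1 ⟨0, h0⟩, AffineSubspace.direction_top, finrank_top]
    simp
  obtain rfl : n = 3 := by
    obtain ⟨F, -, -, h⟩ : 3 ∈ sig S := by simp [hs]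
    have h3 := Submodule.finrank_le (affineSpan ℝ F).direction
    have h4 : n ∈ sig S := ⟨S, ⟨subset_rfl, hC, fun x hx y hy _ => ⟨hx, hy⟩⟩, ⟨0, hz⟩, ht⟩
    simp [hs] at h3 h4
    omega
  have K : ∀ F w, Face S F → (∀ x ∈ F, inner ℝ x w = 1) → ∀ x ∈ F, ∀ y ∈ F, x ≠ y → ∀ z,
      z - inner ℝ z w • x ∈ vectorSpan ℝ F := fun F w hF hw x hx y hy hxy z => by
    have w0 : w ≠ 0 := fun h => by simpa [h] using hw x hx
    have h3 : vectorSpan ℝ F ≤ (ℝ ∙ w)ᗮ := by
      rw [vectorSpan_def, Submodule.span_le]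
      rintro _ ⟨a, ha, b, hb, rfl⟩
      simp [Submodule.mem_orthogonal_singleton_iff_inner_left, inner_sub_left, hw a ha, hw b hb]
    haveI : Fact (finrank ℝ (E 3) = 2 + 1) := ⟨by simp⟩
    have h4 := Submodule.finrank_orthogonal_span_singleton (𝕜 := ℝ) (n := 2) w0
    have h5 := Submodule.finrank_mono h3
    have h6 : finrank ℝ (vectorSpan ℝ F) ≠ 0 := fun h => hxy (by
      have := vsub_mem_vectorSpan ℝ hx hy
      rw [Submodule.finrank_eq_zero.1 h] at this
      exact sub_eq_zero.1 this)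
    have h7 := hd F hF ⟨x, hx⟩
    rw [Submodule.eq_of_le_of_finrank_eq h3 (by simp only [mem_insert_iff, mem_singleton_iff] at h7; omega)]
    simp [Submodule.mem_orthogonal_singleton_iff_inner_left, inner_sub_left, real_inner_smul_left, hw x hx]
  have N : ∀ F, Face S F → F.Nonempty → F ≠ S → ∃ v ∈ polar S, F = {x ∈ S | inner ℝ x v = 1} := fun F a b c => by
    obtain ⟨v, c, h3, h4, h5⟩ := h1 F a b c
    have hc : 0 < c := by
      have : ∀ᶠ t : ℝ in 𝓝[>] 0, t • v ∈ S := nhdsWithin_le_nhds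
        ((show Tendsto (fun t : ℝ => t • v) (𝓝 0) (𝓝 0) from Continuous.tendsto' (by fun_prop) _ _ (by simp))
          (mem_interior_iff_mem_nhds.1 h0))
      obtain ⟨t, h6, h7⟩ := (this.and self_mem_nhdsWithin).exists
      refine lt_of_lt_of_le ?_ (h4 _ h6)
      rw [real_inner_smul_left]
      exact mul_pos h7 (real_inner_self_pos.2 h3)
    refine ⟨c⁻¹ • v, fun x hx => ?_, h5.trans (Set.ext fun x => ?_)⟩
    · rw [real_inner_smul_right, inv_mul_le_one₀ hc]
      exact h4 x hx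
    · simp [real_inner_smul_right, inv_mul_eq_one₀ hc.ne', eq_comm]
  have cW : {w ∈ polar S | ∃ x ∈ S, ∃ y ∈ S, x ≠ y ∧ inner ℝ x w = 1 ∧ inner ℝ y w = 1}.Countable := by
    refine PairwiseDisjoint.countable_of_isOpen
      (s := fun w => interior {x | ∀ y ∈ polar S, inner ℝ x y ≤ inner ℝ x w})
      (fun w hw w' hw' h => Set.disjoint_left.2 fun x h3 h4 => h ?_) (fun _ _ => isOpen_interior) ?_
    · have := (show Tendsto (fun t : ℝ => x + t • (w' - w)) (𝓝 0) (𝓝 x) from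
        Continuous.tendsto' (by fun_prop) _ _ (by simp)) (mem_interior_iff_mem_nhds.1 h3)
      obtain ⟨t, h5, h6⟩ := ((eventually_nhdsWithin_of_eventually_nhds this).and
        (self_mem_nhdsWithin (s := Ioi 0))).exists
      have h7 := h5 w' hw'.1
      have h8 := interior_subset h4 w hw.1
      have h9 : t * inner ℝ (w' - w) (w' - w) ≤ 0 := by
        simp only [inner_add_left, real_inner_smul_left] at h7
        rw [inner_sub_right]
        linarith
      exact (sub_eq_zero.1 (real_inner_self_nonpos.1 (nonpos_of_mul_nonpos_right h9 h6))).symm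
    · rintro w ⟨hw, x, hx, y, hy, hxy, h3, h4⟩
      rw [Convex.interior_nonempty_iff_affineSpan_eq_top,
        AffineSubspace.affineSpan_eq_top_iff_vectorSpan_eq_top_of_nonempty _ _ _ ⟨0, by simp⟩, eq_top_iff]
      · intro z _
        have h5 : {x ∈ S | inner ℝ x w = 1} ⊆ {x | ∀ y ∈ polar S, inner ℝ x y ≤ inner ℝ x w} :=
          fun a ha b hb => ha.2 ▸ hb a ha.1
        have h6 := vectorSpan_mono ℝ h5 (K _ w (face_cut hC hw) (fun _ h => h.2) x ⟨hx, h3⟩ y ⟨hy, h4⟩ hxy z)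
        have h7 := vsub_mem_vectorSpan ℝ (h5 ⟨hx, h3⟩)
          (show 0 ∈ {x | ∀ y ∈ polar S, inner ℝ x y ≤ inner ℝ x w} by simp)
        simpa using add_mem h6 (Submodule.smul_mem _ (inner ℝ z w) h7)
      · intro a ha b hb s t hs ht _ y hy
        simp only [inner_add_left, real_inner_smul_left]
        nlinarith [ha y hy, hb y hy]
  obtain ⟨F, hF, ⟨a, ha⟩, dF⟩ : 2 ∈ sig S := by simp [hs]
  obtain ⟨v, hv, rfl⟩ := N F hF ⟨a, ha⟩ (by rintro rfl; omega)
  rw [direction_affineSpan] at dF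
  have nc := collinear_iff_finrank_le_one.not.2 (show ¬ _ ≤ 1 by rw [dF]; omega)
  rw [collinear_iff_of_mem ha] at nc
  push Not at nc
  obtain ⟨b, hb, hab⟩ := nc 0
  obtain ⟨c, hc, hbc⟩ := nc (b - a)
  have nl : ∀ q u : E 3, (∀ t : ℝ, q + t • u ∈ S) → u = 0 := fun q u h => by
    obtain ⟨G, hG, ⟨e, he⟩, dG⟩ : 0 ∈ sig S := by simp [hs]
    have h3 : ∀ s : ℝ, e + s • u ∈ S := fun s => by
      refine cl.mem_of_tendsto (b := 𝓝[>] (0 : ℝ)) (f := fun l => e + s • u + l • (q - e))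
        (tendsto_nhdsWithin_of_tendsto_nhds (Continuous.tendsto' (by fun_prop) _ _ (by simp))) ?_
      filter_upwards [Ioo_mem_nhdsGT one_pos] with l hl
      convert hC (hG.1 he) (h (s / l)) (a := 1 - l) (b := l) (by linarith [hl.2]) hl.1.le (by ring) using 1
      have := hl.1.ne'
      match_scalars <;> field_simp <;> ring
    have h4 := hG.ext he (h3 1) one_pos (by convert h3 (-1) using 1; module)
    have := vsub_mem_vectorSpan ℝ h4 he
    rw [direction_affineSpan] at dG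
    rw [Submodule.finrank_eq_zero.1 dG] at this
    simpa using this
  have P : ∀ x ∈ S, ∀ y ∈ S, ∀ s : ℝ, 1 ≤ s → x + s • (y - x) ∉ S → inner ℝ x v = 1 → inner ℝ y v = 1 →
      ∃ t : ℝ, x + t • (y - x) ∈ S ∧ ∃ w, w ≠ v ∧ inner ℝ (x + t • (y - x)) w = 1 ∧
        w ∈ {w ∈ polar S | ∃ x ∈ S, ∃ y ∈ S, x ≠ y ∧ inner ℝ x w = 1 ∧ inner ℝ y w = 1} := by
    intro x hx y hy s h3 h4 xv yv
    obtain ⟨t, hp, h5⟩ := last hC cl hx hy h3 h4
    refine ⟨t, hp, ?_⟩
    have pv : inner ℝ (x + t • (y - x)) v = 1 := by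
      simp [inner_add_left, inner_sub_left, real_inner_smul_left, xv, yv]
    generalize x + t • (y - x) = p at hp h5 pv
    have h6 : x ∉ {x ∈ S | ∃ e > (0 : ℝ), p + e • (p - x) ∈ S} := fun ⟨_, e, he, h⟩ => h5 e he h
    have h7 : p ∈ {x ∈ S | ∃ e > (0 : ℝ), p + e • (p - x) ∈ S} := ⟨hp, 1, one_pos, by simpa⟩
    obtain ⟨u, hu, h8⟩ := N _ (face_min hC hp) ⟨p, h7⟩ fun h => h6 (h.symm ▸ hx)
    rw [h8] at h6 h7
    have fc := face_cut (polar_convex S) (v := p) (c := 1) fun y hy => real_inner_comm y p ▸ hy p hp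
    obtain ⟨w, hw, h9⟩ : ∃ w ∈ extremePoints ℝ {y ∈ polar S | inner ℝ y p = 1}, w ≠ v := by
      by_contra! h
      have h10 : u ∈ closure (convexHull ℝ (extremePoints ℝ {y ∈ polar S | inner ℝ y p = 1})) := by
        rw [closure_convexHull_extremePoints (s := {y ∈ polar S | inner ℝ y p = 1}) ((polar_compact h0).inter_right
          (isClosed_eq (by fun_prop) continuous_const)) fc.2.1]
        exact ⟨hu, real_inner_comm u p ▸ h7.2⟩
      obtain rfl : u = v := closure_minimal (convexHull_min h (convex_singleton v)) isClosed_singleton h10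
      exact h6 ⟨hx, xv⟩
    have pw : inner ℝ p w = 1 := real_inner_comm p w ▸ hw.1.2
    have w0 : (0 : E 3) ∉ ({w} : Set (E 3)) := fun h => by simp [← mem_singleton_iff.1 h] at pw
    have p0 : 0 ∈ polar S := fun _ _ => by simp
    obtain ⟨z, m, -, k1, k2⟩ := h2 {w} ⟨singleton_subset_iff.2 hw.1.1, convex_singleton w, by
      rintro a ha b hb ⟨_, h, rfl⟩
      have := fc.2.2 a ha b hb ⟨_, h, hw.1⟩
      exact (mem_extremePoints.1 hw).2 a this.1 b this.2 h⟩ ⟨w, rfl⟩ fun h => w0 (h ▸ p0)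
    have hm : 0 < m := lt_of_le_of_ne (by simpa using k1 0 p0) fun h => w0 (k2 ▸ ⟨p0, by simpa⟩)
    have e : ∀ y, inner ℝ (m⁻¹ • z) y = inner ℝ y z / m := fun y => by
      rw [real_inner_smul_left, real_inner_comm, inv_mul_eq_div]
    refine ⟨w, h9, pw, hw.1.1, p, hp, m⁻¹ • z, bipolar hC cl hz fun y hy => ?_, ?_, pw, ?_⟩
    · rw [e, div_le_one hm]
      exact k1 y hy
    · rintro rfl
      rw [e, div_eq_one_iff_eq hm.ne'] at pv
      exact h9 (show v ∈ ({w} : Set (E 3)) from k2 ▸ ⟨hv, pv⟩).symm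
    · rw [e, div_eq_one_iff_eq hm.ne']
      exact (k2.subset rfl).2
  have Q : ∀ s ∈ Ioo (0 : ℝ) 1, ∃ t : ℝ, a + s • (b - a) + t • (c - b) ∈ S ∧ ∃ w, w ≠ v ∧
      inner ℝ (a + s • (b - a) + t • (c - b)) w = 1 ∧
        w ∈ {w ∈ polar S | ∃ x ∈ S, ∃ y ∈ S, x ≠ y ∧ inner ℝ x w = 1 ∧ inner ℝ y w = 1} := fun s hs => by
    have hx := hF.2.1.add_smul_sub_mem ha hb (Ioo_subset_Icc_self hs)
    have hy := hF.2.1.add_smul_sub_mem ha hc (Ioo_subset_Icc_self hs)
    obtain ⟨r, hr⟩ : ∃ r : ℝ, a + s • (b - a) + r • (a + s • (c - a) - (a + s • (b - a))) ∉ S := by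
      by_contra! h
      have := nl _ _ h
      rw [show a + s • (c - a) - (a + s • (b - a)) = s • (c - b) by module, smul_eq_zero, sub_eq_zero] at this
      exact hbc 1 (by simpa [hs.1.ne'] using this)
    by_cases h3 : 1 ≤ r
    · obtain ⟨t, h⟩ := P _ hx.1 _ hy.1 r h3 hr hx.2 hy.2
      exact ⟨t * s, by rwa [show a + s • (b - a) + (t * s) • (c - b) =
        a + s • (b - a) + t • (a + s • (c - a) - (a + s • (b - a))) by module]⟩
    · by_cases h4 : 0 ≤ r
      · exact (hr (hC.add_smul_sub_mem hx.1 hy.1 ⟨h4, by linarith⟩)).elim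
      obtain ⟨t, h⟩ := P _ hy.1 _ hx.1 (1 - r) (by linarith) (by convert hr using 2; module) hy.2 hx.2
      exact ⟨s - t * s, by rwa [show a + s • (b - a) + (s - t * s) • (c - b) =
        a + s • (c - a) + t • (a + s • (b - a) - (a + s • (c - a))) by module]⟩
  choose! t k1 w k2 k3 k4 using Q
  have : (Ioo (0 : ℝ) 1).Countable := MapsTo.countable_of_injOn (f := w) k4 (fun s hs r hr h => by
    by_contra h3
    have pv : ∀ s t : ℝ, inner ℝ (a + s • (b - a) + t • (c - b)) v = 1 := fun s t => by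
      simp [inner_add_left, inner_sub_left, real_inner_smul_left, ha.2, hb.2, hc.2]
    have h4 : a + s • (b - a) + t s • (c - b) ≠ a + r • (b - a) + t r • (c - b) := fun h5 => by
      by_cases h6 : t s = t r
      · rw [h6, add_left_inj, add_right_inj, ← sub_eq_zero, ← sub_smul, smul_eq_zero, sub_eq_zero,
          sub_eq_zero] at h5
        exact hab 0 (by simpa [h3] using h5)
      · have := sub_ne_zero.2 h6
        refine hbc (1 + (r - s) / (t s - t r)) (smul_right_injective _ this ?_)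
        simp only [vadd_eq_add, smul_add, smul_smul]
        rw [mul_add, mul_div_cancel₀ _ this]
        linear_combination (norm := module) h5
    refine k2 s hs (ext_inner_left ℝ fun z => ?_)
    have h5 := K _ (w s) (hF.inter (face_cut hC (k4 s hs).1)) (fun _ h => h.2.2) _ ⟨⟨k1 s hs, pv _ _⟩, k1 s hs, k3 s hs⟩
      _ ⟨⟨k1 r hr, pv _ _⟩, k1 r hr, h ▸ k3 r hr⟩ h4 z
    have h6 : vectorSpan ℝ ({x ∈ S | inner ℝ x v = 1} ∩ {x ∈ S | inner ℝ x (w s) = 1}) ≤ (ℝ ∙ v)ᗮ := by
      rw [vectorSpan_def, Submodule.span_le]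
      rintro _ ⟨a, ha, b, hb, rfl⟩
      simp [Submodule.mem_orthogonal_singleton_iff_inner_left, inner_sub_left, ha.1.2, hb.1.2]
    have := Submodule.mem_orthogonal_singleton_iff_inner_left.1 (h6 h5)
    rw [inner_sub_left, real_inner_smul_left, pv] at this
    linarith) cW
  simpa using this.measure_zero MeasureTheory.volume

end Pool.Agent.H.MP_f0e28a_gt
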